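import Pool.Agent.Q301.SG.Gear
set_option autoImplicit false

/-! Datko's argument: a uniform `L^2` bound of the orbits makes the group decay. -/

namespace Pool.Agent.Q301.SG

open Complex MeasureTheory Filter Topology Set FourierTransform
open scoped ENNReal

variable {H : Type*} [NormedAddCommGroup H] [InnerProductSpace ℂ H] [CompleteSpace H]
variable {T : ℝ → H →L[ℂ] H}

/-- the normalised orbit norm -/
noncomputable def nn (T : ℝ → H →L[ℂ] H) (x : H) (s : ℝ) : ℝ := Real.exp (-(om T * s)) * ‖T s x‖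

lemma nn_nonneg (x : H) (s : ℝ) : 0 ≤ nn T x s := by unfold nn; positivity

lemma nn_int {α D : ℝ} (hα : om T < α) (hD : 0 < D)
    (hR : ∀ γ, om T < γ → γ < α → ∀ x, ∫⁻ s, ‖cut T γ x s‖ₑ ^ 2 ≤ ENNReal.ofReal (D * ‖x‖ ^ 2))
    (x : H) {t : ℝ} (ht : 0 < t) :
    ∫⁻ s in Ioc 0 t, ENNReal.ofReal (nn T x s ^ 2) ≤ ENNReal.ofReal (Real.exp 2 * D * ‖x‖ ^ 2) := by
  obtain ⟨δ, hδ0, hδ1, hδ2⟩ : ∃ δ : ℝ, 0 < δ ∧ δ < α - om T ∧ δ * t ≤ 1 := by
    refine ⟨min ((α - om T) / 2) (1 / t), lt_min (by linarith) (by positivity),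
      (min_le_left _ _).trans_lt (by linarith), ?_⟩
    calc min ((α - om T) / 2) (1 / t) * t ≤ 1 / t * t := by gcongr; exact min_le_right _ _
      _ = 1 := by field_simp
  have h1 := hR (om T + δ) (by linarith) (by linarith) x
  have h2 : ∀ s ∈ Ioc 0 t, ENNReal.ofReal (nn T x s ^ 2) ≤
      ENNReal.ofReal (Real.exp 2) * ‖cut T (om T + δ) x s‖ₑ ^ 2 := by
    intro s hs
    have hs1 : s ∈ Ioi (0 : ℝ) := hs.1
    unfold cut
    rw [indicator_of_mem hs1, ← ofReal_norm, ← ENNReal.ofReal_pow (norm_nonneg _),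
      ← ENNReal.ofReal_mul (by positivity)]
    apply ENNReal.ofReal_le_ofReal
    have h3 : nn T x s ≤ Real.exp 1 * ‖g T ((om T + δ : ℝ) : ℂ) x s‖ := by
      unfold nn g
      rw [norm_smul, norm_cexp, ← mul_assoc, ← Real.exp_add]
      gcongr
      rw [Complex.ofReal_re]
      have : δ * s ≤ δ * t := by gcongr; exact hs.2
      linarith
    calc nn T x s ^ 2 ≤ (Real.exp 1 * ‖g T ((om T + δ : ℝ) : ℂ) x s‖) ^ 2 :=
          pow_le_pow_left₀ (nn_nonneg x s) h3 2
      _ = _ := by rw [mul_pow, ← Real.exp_nat_mul]; norm_num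
  calc ∫⁻ s in Ioc 0 t, ENNReal.ofReal (nn T x s ^ 2)
      ≤ ∫⁻ s in Ioc 0 t, ENNReal.ofReal (Real.exp 2) * ‖cut T (om T + δ) x s‖ₑ ^ 2 :=
        setLIntegral_mono' measurableSet_Ioc h2
    _ ≤ ∫⁻ s, ENNReal.ofReal (Real.exp 2) * ‖cut T (om T + δ) x s‖ₑ ^ 2 :=
        setLIntegral_le_lintegral _ _
    _ = ENNReal.ofReal (Real.exp 2) * ∫⁻ s, ‖cut T (om T + δ) x s‖ₑ ^ 2 :=
        lintegral_const_mul' _ _ ENNReal.ofReal_ne_top
    _ ≤ ENNReal.ofReal (Real.exp 2) * ENNReal.ofReal (D * ‖x‖ ^ 2) := by gcongr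
    _ = _ := by rw [← ENNReal.ofReal_mul (by positivity)]; congr 1; ring

/-- integrating a lower bound -/
lemma low_int {x : H} {t a K m : ℝ} (ha : 0 ≤ a) (hat : a ≤ t)
    (h : ∫⁻ s in Ioc 0 t, ENNReal.ofReal (nn T x s ^ 2) ≤ ENNReal.ofReal K) (hK : 0 ≤ K)
    (hm : ∀ s ∈ Ioc a t, m ≤ nn T x s ^ 2) : (t - a) * m ≤ K := by
  by_cases hm0 : m ≤ 0
  · exact (mul_nonpos_of_nonneg_of_nonpos (by linarith) hm0).trans hK
  push Not at hm0
  have h1 : ENNReal.ofReal ((t - a) * m) ≤ ENNReal.ofReal K := by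
    calc ENNReal.ofReal ((t - a) * m) = ∫⁻ _ in Ioc a t, ENNReal.ofReal m := by
          rw [setLIntegral_const, Real.volume_Ioc, ← ENNReal.ofReal_mul hm0.le, mul_comm]
      _ ≤ ∫⁻ s in Ioc a t, ENNReal.ofReal (nn T x s ^ 2) :=
          setLIntegral_mono' measurableSet_Ioc fun s hs => ENNReal.ofReal_le_ofReal (hm s hs)
      _ ≤ ∫⁻ s in Ioc 0 t, ENNReal.ofReal (nn T x s ^ 2) :=
          lintegral_mono_set (Ioc_subset_Ioc_left ha)
      _ ≤ _ := h
  exact (ENNReal.ofReal_le_ofReal_iff hK).1 h1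

lemma nn_step (hT : IsC0Group T) (x : H) (s t : ℝ) :
    nn T x t = Real.exp (-(om T * s)) * nn T (T s x) (t - s) := by
  unfold nn
  rw [← mul_assoc, ← Real.exp_add]
  have : T t x = T (t - s) (T s x) := by
    have e : T t = T (t - s) * T s := by rw [← hT.add]; congr 1; ring
    rw [e]; rfl
  rw [this]
  congr 2
  ring

theorem no_bound [Nontrivial H] (hT : IsC0Group T) {α D : ℝ} (hα : om T < α) (hD : 0 < D)
    (hR : ∀ γ, om T < γ → γ < α → ∀ x, ∫⁻ s, ‖cut T γ x s‖ₑ ^ 2 ≤ ENNReal.ofReal (D * ‖x‖ ^ 2)) :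
    False := by
  -- boundedness
  obtain ⟨L, hL1, hL⟩ := bdd_Icc hT 0 1
  have hshort : ∀ (y : H) (s : ℝ), 0 ≤ s → s ≤ 1 → nn T y s ≤ L * Real.exp |om T| * ‖y‖ := by
    intro y s h0 h1
    unfold nn
    have e1 : Real.exp (-(om T * s)) ≤ Real.exp |om T| := by
      apply Real.exp_le_exp.2
      calc -(om T * s) ≤ |om T * s| := neg_le_abs _
        _ = |om T| * s := by rw [abs_mul, abs_of_nonneg h0]
        _ ≤ |om T| * 1 := by gcongr
        _ = _ := mul_one _
    calc Real.exp (-(om T * s)) * ‖T s y‖ ≤ Real.exp |om T| * (L * ‖y‖) := by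
          gcongr
          exact (ContinuousLinearMap.le_opNorm _ _).trans (by gcongr; exact hL s ⟨h0, h1⟩)
      _ = _ := by ring
  obtain ⟨B, hB0, hB⟩ : ∃ B : ℝ, 0 < B ∧ ∀ (x : H) (t : ℝ), 0 ≤ t → nn T x t ≤ B * ‖x‖ := by
    refine ⟨L * Real.exp |om T| * (1 + (Real.exp 2 * D)), by positivity, fun x t ht => ?_⟩
    have hED : 0 < Real.exp 2 * D := by positivity
    rcases le_total t 1 with h1 | h1
    · refine (hshort x t ht h1).trans ?_
      have : 0 ≤ L * Real.exp |om T| * ‖x‖ := by positivity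
      nlinarith
    · have h2 := nn_int hα hD hR x (show 0 < t by linarith)
      have h3 := low_int (T := T) (x := x) (t := t) (a := t - 1)
        (m := (nn T x t / (L * Real.exp |om T|)) ^ 2) (by linarith) (by linarith) h2
        (by positivity) (fun s hs => by
          apply pow_le_pow_left₀ (by have := nn_nonneg (T := T) x t; positivity)
          rw [div_le_iff₀ (by positivity), nn_step hT x s t]
          have h4 := hshort (T s x) (t - s) (by linarith [hs.2]) (by linarith [hs.1])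
          calc Real.exp (-(om T * s)) * nn T (T s x) (t - s)
              ≤ Real.exp (-(om T * s)) * (L * Real.exp |om T| * ‖T s x‖) := by gcongr
            _ = _ := by unfold nn; ring)
      have h5 : (nn T x t / (L * Real.exp |om T|)) ^ 2 ≤ ((1 + Real.exp 2 * D) * ‖x‖) ^ 2 := by
        have e1 : t - (t - 1) = 1 := by ring
        rw [e1, one_mul] at h3
        refine h3.trans ?_
        rw [mul_pow]
        gcongr
        nlinarith
      have h6 := abs_le_of_sq_le_sq' h5 (by positivity)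
      have h7 := h6.2
      rw [div_le_iff₀ (by positivity)] at h7
      calc nn T x t ≤ _ := h7
        _ = _ := by ring
  -- decay
  obtain ⟨t, ht⟩ : ∃ t : ℝ, t = 4 * (B ^ 2 * (Real.exp 2 * D)) + 1 := ⟨_, rfl⟩
  have ht0 : 0 < t := by rw [ht]; positivity
  have hdec : ∀ x : H, nn T x t ≤ 1 / 2 * ‖x‖ := by
    intro x
    have h2 := nn_int hα hD hR x ht0
    have h3 := low_int (T := T) (x := x) (t := t) (a := 0) (m := (nn T x t / B) ^ 2) le_rfl
      ht0.le h2 (by positivity) (fun s hs => by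
        apply pow_le_pow_left₀ (by have := nn_nonneg (T := T) x t; positivity)
        rw [div_le_iff₀ hB0, nn_step hT x s t]
        have h4 := hB (T s x) (t - s) (by linarith [hs.2])
        calc Real.exp (-(om T * s)) * nn T (T s x) (t - s)
            ≤ Real.exp (-(om T * s)) * (B * ‖T s x‖) := by gcongr
          _ = _ := by unfold nn; ring)
    rw [sub_zero, div_pow] at h3
    have h4 : t * nn T x t ^ 2 ≤ B ^ 2 * (Real.exp 2 * D) * ‖x‖ ^ 2 := by
      have : t * (nn T x t ^ 2 / B ^ 2) * B ^ 2 ≤ Real.exp 2 * D * ‖x‖ ^ 2 * B ^ 2 := by gcongr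
      calc t * nn T x t ^ 2 = t * (nn T x t ^ 2 / B ^ 2) * B ^ 2 := by field_simp
        _ ≤ _ := this
        _ = _ := by ring
    have h5 : nn T x t ^ 2 ≤ (1 / 2 * ‖x‖) ^ 2 := by
      have e1 : 0 < B ^ 2 * (Real.exp 2 * D) := by positivity
      have e2 : 4 * (B ^ 2 * (Real.exp 2 * D)) * nn T x t ^ 2 ≤ t * nn T x t ^ 2 := by
        gcongr; rw [ht]; linarith
      have e3 : (B ^ 2 * (Real.exp 2 * D)) * (4 * nn T x t ^ 2) ≤
          (B ^ 2 * (Real.exp 2 * D)) * ‖x‖ ^ 2 := by linarith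
      have e4 := le_of_mul_le_mul_left e3 e1
      nlinarith
    exact (abs_le_of_sq_le_sq' h5 (by positivity)).2
  have hnorm : ‖T t‖ ≤ 1 / 2 * Real.exp (om T * t) := by
    refine ContinuousLinearMap.opNorm_le_bound _ (by positivity) fun x => ?_
    have h1 := hdec x
    unfold nn at h1
    have h2 : ‖T t x‖ = Real.exp (om T * t) * (Real.exp (-(om T * t)) * ‖T t x‖) := by
      rw [← mul_assoc, ← Real.exp_add, add_neg_cancel, Real.exp_zero, one_mul]
    rw [h2]
    calc Real.exp (om T * t) * (Real.exp (-(om T * t)) * ‖T t x‖)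
        ≤ Real.exp (om T * t) * (1 / 2 * ‖x‖) := by gcongr
      _ = _ := by ring
  have h1 := om_le_log hT ht0
  rw [le_div_iff₀ ht0] at h1
  have h2 := Real.log_le_log (norm_pos hT t) hnorm
  rw [Real.log_mul (by norm_num) (Real.exp_pos _).ne', Real.log_exp] at h2
  have h3 : Real.log (1 / 2) < 0 := Real.log_neg (by norm_num) (by norm_num)
  linarith

end Pool.Agent.Q301.SG
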