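import Mathlib
set_option autoImplicit false

/-! Plancherel's theorem for Hilbert space valued functions in `L^1 ∩ L^2` of the line. -/

namespace Pool.Agent.Q301.SG

open Complex MeasureTheory Filter Topology FourierTransform SchwartzMap
open scoped ContDiff ENNReal

variable {F : Type*} [NormedAddCommGroup F] [InnerProductSpace ℂ F] [CompleteSpace F]

lemma fourier_ae_eq (f : ℝ → F) (h1 : Integrable f) (h2 : MemLp f 2) :
    ((𝓕 (h2.toLp f) : Lp F 2 (volume : Measure ℝ)) : ℝ → F) =ᵐ[volume] 𝓕 f := by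
  have hcont : Continuous (𝓕 f) := by
    have := VectorFourier.fourierIntegral_continuous (L := innerₗ ℝ) Real.continuous_fourierChar
      continuous_inner h1
    exact this
  apply ae_eq_of_integral_contDiff_smul_eq
  · exact (Lp.memLp _).locallyIntegrable (by norm_num)
  · exact hcont.locallyIntegrable
  · intro g g_smooth g_cpt
    have hg₁ : HasCompactSupport (Complex.ofRealCLM ∘ g) := g_cpt.comp_left rfl
    have hg₂ : ContDiff ℝ ∞ (Complex.ofRealCLM ∘ g) := by fun_prop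
    set gS : 𝓢(ℝ, ℂ) := hg₁.toSchwartzMap hg₂ with hgS
    have hgx : ∀ x, gS x = (g x : ℂ) := fun x => rfl
    have e1 : ∫ x, g x • ((𝓕 (h2.toLp f) : Lp F 2 (volume : Measure ℝ)) : ℝ → F) x =
        ((𝓕 (h2.toLp f) : Lp F 2 (volume : Measure ℝ)) : 𝓢'(ℝ, F)) gS := by
      rw [Lp.toTemperedDistribution_apply]
      simp [hgx]
    rw [e1, ← Lp.fourier_toTemperedDistribution_eq, TemperedDistribution.fourier_apply,
      Lp.toTemperedDistribution_apply]
    have e2 : ∫ x, (𝓕 gS) x • (h2.toLp f : ℝ → F) x = ∫ x, (𝓕 gS) x • f x := by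
      apply integral_congr_ae
      filter_upwards [h2.coeFn_toLp] with x hx
      rw [hx]
    rw [e2]
    have e3 := VectorFourier.integral_fourierIntegral_smul_eq_flip (L := innerₗ ℝ)
      Real.continuous_fourierChar continuous_inner gS.integrable h1 (μ := volume) (ν := volume)
    simp only [flip_innerₗ] at e3
    have e4 : ∫ x, (𝓕 gS) x • f x = ∫ x, gS x • (𝓕 f) x := by
      rw [SchwartzMap.fourier_coe]
      exact e3
    rw [e4]
    simp [hgx]

theorem plancherel (f : ℝ → F) (h1 : Integrable f) (h2 : MemLp f 2) :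
    ∫⁻ ξ, ‖𝓕 f ξ‖ₑ ^ 2 = ∫⁻ x, ‖f x‖ₑ ^ 2 := by
  have hae := fourier_ae_eq f h1 h2
  have hmem : MemLp (𝓕 f) 2 := (memLp_congr_ae hae).mp (Lp.memLp _)
  have hn : ‖(𝓕 (h2.toLp f) : Lp F 2 (volume : Measure ℝ))‖ = ‖h2.toLp f‖ := Lp.norm_fourier_eq _
  have e1 : eLpNorm (𝓕 f) 2 volume = eLpNorm f 2 volume := by
    rw [← eLpNorm_congr_ae hae]
    have a1 := Lp.norm_def (𝓕 (h2.toLp f) : Lp F 2 (volume : Measure ℝ))
    have a2 := Lp.norm_def (h2.toLp f)
    rw [hn, a2] at a1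
    have a3 : eLpNorm (h2.toLp f) 2 volume = eLpNorm f 2 volume := eLpNorm_congr_ae h2.coeFn_toLp
    rw [← a3]
    exact ((ENNReal.toReal_eq_toReal_iff' (Lp.memLp _).eLpNorm_lt_top.ne (Lp.memLp _).eLpNorm_lt_top.ne).mp a1).symm
  have b1 := eLpNorm_nnreal_pow_eq_lintegral (f := 𝓕 f) (μ := (volume : Measure ℝ)) (p := 2) (by norm_num)
  have b2 := eLpNorm_nnreal_pow_eq_lintegral (f := f) (μ := (volume : Measure ℝ)) (p := 2) (by norm_num)
  have c1 : (((2 : NNReal) : ℝ≥0∞)) = 2 := by norm_num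
  rw [c1] at b1 b2
  rw [e1, b2] at b1
  simp only [NNReal.coe_ofNat, ENNReal.rpow_ofNat] at b1
  exact b1.symm

end Pool.Agent.Q301.SG
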