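import Pool.Agent.Q301.SG.Lap
import Pool.Agent.Q301.SG.Planch
set_option autoImplicit false

/-! Gearhart-Pruess: a uniform bound of the resolvent to the right of the growth bound is
impossible. -/

namespace Pool.Agent.Q301.SG

open Complex MeasureTheory Filter Topology Set FourierTransform
open scoped ENNReal

variable {H : Type*} [NormedAddCommGroup H] [InnerProductSpace ℂ H] [CompleteSpace H]
variable {T : ℝ → H →L[ℂ] H}

/-- the damped orbit, cut off at zero -/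
noncomputable def cut (T : ℝ → H →L[ℂ] H) (γ : ℝ) (x : H) : ℝ → H :=
  indicator (Ioi 0) (fun s => g T γ x s)

lemma fourier_cut (γ : ℝ) (x : H) (ξ : ℝ) :
    𝓕 (cut T γ x) ξ = Lap T (γ + 2 * Real.pi * ξ * I) x := by
  rw [Real.fourier_real_eq_integral_exp_smul]
  unfold cut Lap
  rw [← integral_indicator measurableSet_Ioi]
  congr 1
  ext s
  by_cases hs : s ∈ Ioi (0 : ℝ)
  · rw [indicator_of_mem hs, indicator_of_mem hs]
    unfold g
    rw [smul_smul, ← Complex.exp_add]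
    congr 2
    push_cast
    ring
  · rw [indicator_of_notMem hs, indicator_of_notMem hs, smul_zero]

lemma cut_int (hT : IsC0Group T) {ω : ℝ} (h : GB T ω) {γ : ℝ} (hz : ω < γ) (x : H) :
    Integrable (cut T γ x) :=
  (integrable_indicator_iff measurableSet_Ioi).2 (g_int hT h (z := (γ : ℂ)) (by simpa using hz) x 0)

lemma cut_sq {ω M : ℝ} (hM : 0 < M)
    (h : ∀ t : ℝ, 0 ≤ t → ‖T t‖ ≤ M * Real.exp (ω * t)) {γ : ℝ} (hz : ω < γ) (x : H) :
    ∫⁻ s, ‖cut T γ x s‖ₑ ^ 2 ≤ ENNReal.ofReal (M ^ 2 * ‖x‖ ^ 2 / (2 * (γ - ω))) := by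
  have h1 : ∀ s, ‖cut T γ x s‖ₑ ^ 2 ≤ (Ioi (0 : ℝ)).indicator (fun s => ENNReal.ofReal
      (M ^ 2 * ‖x‖ ^ 2 * Real.exp (-(2 * (γ - ω)) * s))) s := by
    intro s
    by_cases hs : s ∈ Ioi (0 : ℝ)
    · unfold cut
      rw [indicator_of_mem hs, indicator_of_mem hs, ← ofReal_norm, ← ENNReal.ofReal_pow (norm_nonneg _)]
      apply ENNReal.ofReal_le_ofReal
      have h2 := g_bound h (γ : ℂ) x (le_of_lt hs)
      have h3 := pow_le_pow_left₀ (norm_nonneg _) h2 2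
      refine h3.trans (le_of_eq ?_)
      rw [mul_pow, mul_pow, ← Real.exp_nat_mul]
      congr 2
      simp
      ring
    · unfold cut
      rw [indicator_of_notMem hs, indicator_of_notMem hs]; simp
  calc ∫⁻ s, ‖cut T γ x s‖ₑ ^ 2 ≤ ∫⁻ s, (Ioi (0 : ℝ)).indicator (fun s => ENNReal.ofReal
      (M ^ 2 * ‖x‖ ^ 2 * Real.exp (-(2 * (γ - ω)) * s))) s := lintegral_mono h1
    _ = ∫⁻ s in Ioi (0 : ℝ), ENNReal.ofReal (M ^ 2 * ‖x‖ ^ 2 * Real.exp (-(2 * (γ - ω)) * s)) :=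
        lintegral_indicator measurableSet_Ioi _
    _ = ENNReal.ofReal (∫ s in Ioi (0 : ℝ), M ^ 2 * ‖x‖ ^ 2 * Real.exp (-(2 * (γ - ω)) * s)) := by
        rw [ofReal_integral_eq_lintegral_ofReal]
        · exact (exp_neg_integrableOn_Ioi 0 (by linarith)).const_mul _
        · exact Eventually.of_forall fun s => by positivity
    _ = _ := by
        congr 1
        have e : γ - ω ≠ 0 := by linarith
        rw [integral_const_mul, integral_exp_mul_Ioi (by linarith), mul_zero, Real.exp_zero]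
        field_simp

lemma cut_memLp (hT : IsC0Group T) {ω : ℝ} (h : GB T ω) {γ : ℝ} (hz : ω < γ) (x : H) :
    MemLp (cut T γ x) 2 := by
  obtain ⟨M, hM, h1⟩ := id h
  refine ⟨(cut_int hT h hz x).aestronglyMeasurable, ?_⟩
  have b2 := eLpNorm_nnreal_pow_eq_lintegral (f := cut T γ x) (μ := (volume : Measure ℝ)) (p := 2)
    (by norm_num)
  have c1 : (((2 : NNReal) : ℝ≥0∞)) = 2 := by norm_num
  rw [c1] at b2
  simp only [NNReal.coe_ofNat, ENNReal.rpow_ofNat] at b2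
  have h3 : eLpNorm (cut T γ x) 2 volume ^ 2 < ⊤ := by
    rw [b2]
    exact (cut_sq hM h1 hz x).trans_lt ENNReal.ofReal_lt_top
  by_contra hcon
  rw [not_lt, top_le_iff] at hcon
  rw [hcon] at h3
  simp at h3

lemma planch_cut (hT : IsC0Group T) {ω : ℝ} (h : GB T ω) {γ : ℝ} (hz : ω < γ) (x : H) :
    ∫⁻ ξ : ℝ, ‖Lap T (γ + 2 * Real.pi * ξ * I) x‖ₑ ^ 2 = ∫⁻ s, ‖cut T γ x s‖ₑ ^ 2 := by
  rw [← plancherel (cut T γ x) (cut_int hT h hz x) (cut_memLp hT h hz x)]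
  simp_rw [fourier_cut]

/-- uniform bound for the resolvents just to the right of the growth bound gives a uniform `L^2`
bound for the orbits -/
lemma orbit_sq (hT : IsC0Group T) {α C : ℝ} (hα : om T < α) (hC : 0 ≤ C)
    (hR : ∀ z : ℂ, om T < z.re → z.re < α → ∀ y, ‖Lap T z y‖ ≤ C * ‖y‖) :
    ∃ D : ℝ, 0 < D ∧ ∀ γ, om T < γ → γ < α → ∀ x,
      ∫⁻ s, ‖cut T γ x s‖ₑ ^ 2 ≤ ENNReal.ofReal (D * ‖x‖ ^ 2) := by
  obtain ⟨ω, h1, h2⟩ := exists_between hα
  obtain ⟨M, hM, hb⟩ := gb_of_om_lt hT h1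
  refine ⟨(1 + (α - om T) * C) ^ 2 * (M ^ 2 / (2 * (α - ω))), ?_, fun γ hγ1 hγ2 x => ?_⟩
  · have : 0 < α - ω := by linarith
    have : 0 ≤ (α - om T) * C := mul_nonneg (by linarith) hC
    positivity
  obtain ⟨ω', h3, h4⟩ := exists_between hγ1
  have hg := gb_of_om_lt hT h3
  rw [← planch_cut hT hg h4]
  have hC1 : 0 ≤ (α - om T) * C := mul_nonneg (by linarith) hC
  have key : ∀ ξ : ℝ, ‖Lap T (γ + 2 * Real.pi * ξ * I) x‖ₑ ^ 2 ≤
      ENNReal.ofReal ((1 + (α - om T) * C) ^ 2) * ‖Lap T (α + 2 * Real.pi * ξ * I) x‖ₑ ^ 2 := by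
    intro ξ
    have hre1 : ((γ : ℂ) + 2 * Real.pi * ξ * I).re = γ := by simp
    have hre2 : ((α : ℂ) + 2 * Real.pi * ξ * I).re = α := by simp
    obtain ⟨R, hR0⟩ := lap_clm hT hg (z := (γ : ℂ) + 2 * Real.pi * ξ * I) (by rw [hre1]; exact h4)
    have hid := res_id hT hg (z := (α : ℂ) + 2 * Real.pi * ξ * I) (by rw [hre2]; linarith)
      (z₀ := (γ : ℂ) + 2 * Real.pi * ξ * I) (R₀ := R)
      (fun a w haw => by rw [hR0]; exact lap_gen hT hg (by rw [hre1]; exact h4) haw) x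
    rw [hR0, hR0] at hid
    have e1 : ((γ : ℂ) + 2 * Real.pi * ξ * I) - (α + 2 * Real.pi * ξ * I) = ((γ - α : ℝ) : ℂ) := by
      push_cast; ring
    rw [e1] at hid
    have hn : ‖Lap T (γ + 2 * Real.pi * ξ * I) x‖ ≤
        (1 + (α - om T) * C) * ‖Lap T (α + 2 * Real.pi * ξ * I) x‖ := by
      have e2 : Lap T (γ + 2 * Real.pi * ξ * I) x = Lap T (α + 2 * Real.pi * ξ * I) x -
          ((γ - α : ℝ) : ℂ) • Lap T (γ + 2 * Real.pi * ξ * I) (Lap T (α + 2 * Real.pi * ξ * I) x) := by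
        rw [eq_sub_iff_add_eq]; exact hid.symm
      rw [e2]
      refine (norm_sub_le _ _).trans ?_
      rw [norm_smul, Complex.norm_real, Real.norm_eq_abs, abs_of_neg (by linarith : γ - α < 0)]
      have h6 := hR (γ + 2 * Real.pi * ξ * I) (by rw [hre1]; exact hγ1) (by rw [hre1]; exact hγ2)
        (Lap T (α + 2 * Real.pi * ξ * I) x)
      have h7 : -(γ - α) * ‖Lap T (γ + 2 * Real.pi * ξ * I) (Lap T (α + 2 * Real.pi * ξ * I) x)‖ ≤
          (α - om T) * (C * ‖Lap T (α + 2 * Real.pi * ξ * I) x‖) :=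
        mul_le_mul (by linarith) h6 (norm_nonneg _) (by linarith)
      nlinarith
    rw [← ofReal_norm, ← ofReal_norm, ← ENNReal.ofReal_pow (norm_nonneg _),
      ← ENNReal.ofReal_pow (norm_nonneg _), ← ENNReal.ofReal_mul (by positivity)]
    apply ENNReal.ofReal_le_ofReal
    rw [← mul_pow]
    exact pow_le_pow_left₀ (norm_nonneg _) hn 2
  calc ∫⁻ ξ : ℝ, ‖Lap T (γ + 2 * Real.pi * ξ * I) x‖ₑ ^ 2
      ≤ ∫⁻ ξ : ℝ, ENNReal.ofReal ((1 + (α - om T) * C) ^ 2) *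
        ‖Lap T (α + 2 * Real.pi * ξ * I) x‖ₑ ^ 2 := lintegral_mono key
    _ = ENNReal.ofReal ((1 + (α - om T) * C) ^ 2) *
        ∫⁻ ξ : ℝ, ‖Lap T (α + 2 * Real.pi * ξ * I) x‖ₑ ^ 2 :=
        lintegral_const_mul' _ _ ENNReal.ofReal_ne_top
    _ ≤ ENNReal.ofReal ((1 + (α - om T) * C) ^ 2) *
        ENNReal.ofReal (M ^ 2 * ‖x‖ ^ 2 / (2 * (α - ω))) := by
        gcongr
        rw [planch_cut hT (gb_of_om_lt hT h1) h2]
        exact cut_sq hM hb h2 x
    _ = _ := by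
        rw [← ENNReal.ofReal_mul (by positivity)]
        congr 1; ring

end Pool.Agent.Q301.SG
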