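import Pool.Agent.Q301.SG.Sem
set_option autoImplicit false

/-! The Laplace transform of a strongly continuous group is the resolvent of its generator. -/

namespace Pool.Agent.Q301.SG

open Complex MeasureTheory Filter Topology Set
open scoped ENNReal

variable {H : Type*} [NormedAddCommGroup H] [InnerProductSpace ℂ H] [CompleteSpace H]
variable {T : ℝ → H →L[ℂ] H}

/-- the integrand of the Laplace transform -/
noncomputable def g (T : ℝ → H →L[ℂ] H) (z : ℂ) (y : H) (s : ℝ) : H := cexp (-(z * s)) • T s y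

/-- the Laplace transform -/
noncomputable def Lap (T : ℝ → H →L[ℂ] H) (z : ℂ) (y : H) : H := ∫ s in Ioi (0 : ℝ), g T z y s

lemma g_cont (hT : IsC0Group T) (z : ℂ) (y : H) : Continuous (g T z y) := by
  unfold g
  exact (by fun_prop : Continuous fun s : ℝ => cexp (-(z * s))).smul (hT.cont y)

lemma norm_cexp (z : ℂ) (s : ℝ) : ‖cexp (-(z * s))‖ = Real.exp (-(z.re * s)) := by
  rw [Complex.norm_exp]; simp

lemma g_bound {ω M : ℝ} (h : ∀ t : ℝ, 0 ≤ t → ‖T t‖ ≤ M * Real.exp (ω * t)) (z : ℂ) (y : H)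
    {s : ℝ} (hs : 0 ≤ s) : ‖g T z y s‖ ≤ M * ‖y‖ * Real.exp (-((z.re - ω) * s)) := by
  unfold g
  rw [norm_smul, norm_cexp]
  calc Real.exp (-(z.re * s)) * ‖T s y‖ ≤ Real.exp (-(z.re * s)) * ((M * Real.exp (ω * s)) * ‖y‖) := by
        gcongr
        exact (ContinuousLinearMap.le_opNorm _ _).trans (by gcongr; exact h s hs)
    _ = M * ‖y‖ * (Real.exp (-(z.re * s)) * Real.exp (ω * s)) := by ring
    _ = _ := by rw [← Real.exp_add]; ring_nf

lemma g_int (hT : IsC0Group T) {ω : ℝ} (h : GB T ω) {z : ℂ} (hz : ω < z.re) (y : H) (a : ℝ) :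
    IntegrableOn (g T z y) (Ioi a) := by
  obtain ⟨M, hM, h1⟩ := h
  have h0 : IntegrableOn (g T z y) (Ioi 0) := by
    have h2 : IntegrableOn (fun s : ℝ => M * ‖y‖ * Real.exp (-(z.re - ω) * s)) (Ioi 0) :=
      (exp_neg_integrableOn_Ioi 0 (by linarith)).const_mul _
    refine h2.mono' (g_cont hT z y).aestronglyMeasurable ?_
    filter_upwards [ae_restrict_mem measurableSet_Ioi] with s hs
    have := g_bound h1 z y (le_of_lt hs)
    rwa [← neg_mul] at this
  rcases le_total 0 a with ha | ha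
  · exact h0.mono_set (Ioi_subset_Ioi ha)
  · have : Ioi a = Ioc a 0 ∪ Ioi 0 := by rw [Ioc_union_Ioi_eq_Ioi ha]
    rw [this]
    exact ((g_cont hT z y).integrableOn_Ioc).union h0

/-- the Laplace transform as a bounded operator -/
lemma lap_bound {ω M : ℝ} (hT : IsC0Group T) (hM : 0 < M)
    (h : ∀ t : ℝ, 0 ≤ t → ‖T t‖ ≤ M * Real.exp (ω * t)) {z : ℂ} (hz : ω < z.re) (y : H) :
    ‖Lap T z y‖ ≤ M / (z.re - ω) * ‖y‖ := by
  have h1 : ‖Lap T z y‖ ≤ ∫ s in Ioi (0 : ℝ), M * ‖y‖ * Real.exp (-(z.re - ω) * s) := by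
    refine norm_integral_le_of_norm_le ((exp_neg_integrableOn_Ioi 0 (by linarith)).const_mul _) ?_
    filter_upwards [ae_restrict_mem measurableSet_Ioi] with s hs
    have := g_bound h z y (le_of_lt hs)
    rwa [← neg_mul] at this
  have h2 : ∫ s in Ioi (0 : ℝ), M * ‖y‖ * Real.exp (-(z.re - ω) * s) = M / (z.re - ω) * ‖y‖ := by
    have e : z.re - ω ≠ 0 := by linarith
    rw [integral_const_mul, integral_exp_mul_Ioi (by linarith), mul_zero, Real.exp_zero]
    field_simp
  rw [h2] at h1; exact h1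

/-- the Laplace transform as a bounded operator -/
theorem lap_clm (hT : IsC0Group T) {ω : ℝ} (h : GB T ω) {z : ℂ} (hz : ω < z.re) :
    ∃ R : H →L[ℂ] H, ∀ y, R y = Lap T z y := by
  obtain ⟨M, hM, h1⟩ := id h
  refine ⟨LinearMap.mkContinuous
    { toFun := fun y => Lap T z y
      map_add' := fun x y => ?_
      map_smul' := fun c x => ?_ } (M / (z.re - ω)) (fun y => lap_bound hT hM h1 hz y), fun y => rfl⟩
  · show Lap T z (x + y) = Lap T z x + Lap T z y
    unfold Lap
    rw [← integral_add (g_int hT h hz x 0) (g_int hT h hz y 0)]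
    congr 1; ext s; unfold g; rw [map_add, smul_add]
  · show Lap T z (c • x) = c • Lap T z x
    unfold Lap
    rw [← integral_smul]
    congr 1; ext s; unfold g; rw [map_smul, smul_comm]

lemma T_lap (hT : IsC0Group T) {ω : ℝ} (h : GB T ω) {z : ℂ} (hz : ω < z.re) (y : H) (t : ℝ) :
    T t (Lap T z y) = cexp (z * t) • (Lap T z y - ∫ s in (0 : ℝ)..t, g T z y s) := by
  have h1 : T t (Lap T z y) = ∫ s in Ioi (0 : ℝ), T t (g T z y s) := by
    unfold Lap
    rw [ContinuousLinearMap.integral_comp_comm _ (g_int hT h hz y 0)]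
  have h2 : ∀ s : ℝ, T t (g T z y s) = cexp (z * t) • g T z y (s + t) := by
    intro s
    unfold g
    rw [map_smul, smul_smul, ← Complex.exp_add]
    have e1 : z * t + -(z * ((s + t : ℝ) : ℂ)) = -(z * s) := by push_cast; ring
    rw [e1, add_comm s t, hT.add]; rfl
  have h3 : ∫ s in Ioi (0 : ℝ), g T z y (s + t) = ∫ u in Ioi t, g T z y u := by
    have := (measurePreserving_add_right (volume : Measure ℝ) t).setIntegral_preimage_emb
      (measurableEmbedding_addRight t) (g T z y) (Ioi t)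
    rw [← this]
    congr 1
    congr 1
    ext s; simp
  have h4 : (∫ s in (0 : ℝ)..t, g T z y s) + ∫ u in Ioi t, g T z y u = Lap T z y :=
    intervalIntegral.integral_interval_add_Ioi (g_int hT h hz y 0) (g_int hT h hz y t)
  rw [h1]
  simp_rw [h2]
  rw [integral_smul, h3, ← h4]
  congr 1
  abel

theorem gen_lap (hT : IsC0Group T) {ω : ℝ} (h : GB T ω) {z : ℂ} (hz : ω < z.re) (y : H) :
    Gen T (Lap T z y) (z • Lap T z y - y) := by
  unfold Gen
  have h1 : (fun t : ℝ => T t (Lap T z y)) =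
      fun t : ℝ => cexp (z * t) • (Lap T z y - ∫ s in (0 : ℝ)..t, g T z y s) :=
    funext fun t => T_lap hT h hz y t
  rw [h1]
  have h2 : HasDerivAt (fun t : ℝ => cexp (z * t)) z 0 := by
    have : HasDerivAt (fun t : ℝ => z * (t : ℂ)) (z * 1) 0 :=
      (Complex.ofRealCLM.hasDerivAt (x := (0 : ℝ))).const_mul z
    have h3 := this.cexp
    simpa using h3
  have h3 : HasDerivAt (fun t : ℝ => ∫ s in (0 : ℝ)..t, g T z y s) (g T z y 0) 0 :=
    intervalIntegral.integral_hasDerivAt_right ((g_cont hT z y).intervalIntegrable _ _)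
      ((g_cont hT z y).stronglyMeasurableAtFilter _ _) (g_cont hT z y).continuousAt
  have h4 := h2.smul (h3.const_sub (Lap T z y))
  have h5 : g T z y 0 = y := by unfold g; simp [hT.zero]
  simp only [Complex.ofReal_zero, mul_zero, Complex.exp_zero, one_smul,
    intervalIntegral.integral_same, sub_zero, h5] at h4
  rw [sub_eq_add_neg, add_comm]
  exact h4

lemma gen_deriv (hT : IsC0Group T) {x w : H} (h : Gen T x w) (t : ℝ) :
    HasDerivAt (fun s : ℝ => T s x) (T t w) t := by
  have h1 : (fun s : ℝ => T s x) = fun s : ℝ => T t (T (s - t) x) := by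
    ext s
    have : s = t + (s - t) := by ring
    conv_lhs => rw [this, hT.add]
    rfl
  rw [h1]
  have h2 : HasDerivAt (fun s : ℝ => T (s - t) x) w t := by
    have h3 : HasDerivAt (fun s : ℝ => T s x) w (t - t) := by rw [sub_self]; exact h
    exact h3.comp_sub_const t t
  exact ((T t).restrictScalars ℝ).hasFDerivAt.comp_hasDerivAt t h2

theorem lap_gen (hT : IsC0Group T) {ω : ℝ} (h : GB T ω) {z : ℂ} (hz : ω < z.re) {x w : H}
    (hx : Gen T x w) : Lap T z (z • x - w) = x := by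
  obtain ⟨M, hM, h1⟩ := id h
  have hd : ∀ t : ℝ, HasDerivAt (fun t : ℝ => g T z x t) (-(g T z (z • x - w) t)) t := by
    intro t
    have h2 : HasDerivAt (fun t : ℝ => cexp (-(z * t))) (-z * cexp (-(z * t))) t := by
      have : HasDerivAt (fun t : ℝ => -(z * (t : ℂ))) (-(z * 1)) t :=
        ((Complex.ofRealCLM.hasDerivAt (x := t)).const_mul z).neg
      have h3 := this.cexp
      have e : cexp (-(z * (t : ℂ))) * -(z * 1) = -z * cexp (-(z * (t : ℂ))) := by ring
      rw [← e]; exact h3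
    have h3 := h2.smul (gen_deriv hT hx t)
    have e : -(g T z (z • x - w) t) = cexp (-(z * t)) • T t w + (-z * cexp (-(z * t))) • T t x := by
      unfold g
      rw [map_sub, map_smul, smul_sub, smul_smul, neg_mul, neg_smul, neg_sub,
        sub_eq_add_neg, mul_comm z (cexp (-(z * (t : ℂ))))]
    rw [e]
    exact h3
  have hlim : Tendsto (fun t : ℝ => g T z x t) atTop (𝓝 0) := by
    have h5 : Tendsto (fun t : ℝ => M * ‖x‖ * Real.exp (-((z.re - ω) * t))) atTop (𝓝 0) := by
      have h6 : Tendsto (fun t : ℝ => -((z.re - ω) * t)) atTop atBot :=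
        tendsto_neg_atTop_atBot.comp (tendsto_id.const_mul_atTop (by linarith))
      simpa using (Real.tendsto_exp_atBot.comp h6).const_mul (M * ‖x‖)
    refine squeeze_zero_norm' ?_ h5
    filter_upwards [eventually_ge_atTop 0] with t ht
    exact g_bound h1 z x ht
  have h6 := integral_Ioi_of_hasDerivAt_of_tendsto' (a := (0 : ℝ)) (fun t _ => hd t)
    ((g_int hT h hz (z • x - w) 0).neg) hlim
  have h7 : g T z x 0 = x := by unfold g; simp [hT.zero]
  rw [h7, zero_sub] at h6
  have h8 : ∫ t in Ioi (0 : ℝ), -(g T z (z • x - w) t) = -(Lap T z (z • x - w)) := integral_neg _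
  rw [h8] at h6
  exact neg_injective h6

theorem inRes_of (hT : IsC0Group T) {ω : ℝ} (h : GB T ω) {z : ℂ} (hz : ω < z.re) : InRes T z := by
  obtain ⟨R, hR⟩ := lap_clm hT h hz
  refine ⟨R, fun y => ⟨z • R y - y, ?_, by abel⟩, fun x w hx => ?_⟩
  · rw [hR]; exact gen_lap hT h hz y
  · rw [hR]; exact lap_gen hT h hz hx

/-- resolvent identity -/
theorem res_id (hT : IsC0Group T) {ω : ℝ} (h : GB T ω) {z : ℂ} (hz : ω < z.re) {z₀ : ℂ}
    {R₀ : H →L[ℂ] H} (h₀ : ∀ x w, Gen T x w → R₀ (z₀ • x - w) = x) (y : H) :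
    Lap T z y = R₀ y + (z₀ - z) • R₀ (Lap T z y) := by
  have h1 := h₀ _ _ (gen_lap hT h hz y)
  have h2 : z₀ • Lap T z y - (z • Lap T z y - y) = y + (z₀ - z) • Lap T z y := by
    rw [sub_smul]; abel
  rw [h2, map_add, map_smul] at h1
  exact h1.symm

end Pool.Agent.Q301.SG
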