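import Pool.Agent.Q301.SG.Datko
set_option autoImplicit false

/-! Positive groups on ordered Hilbert spaces: the resolvent in the half plane is dominated by the
resolvent on the real axis. -/

namespace Pool.Agent.Q301.SG

open Complex MeasureTheory Filter Topology Set
open scoped ENNReal

/-- `K` is a closed, normal and generating cone. -/
structure IsOrderCone {E : Type*} [NormedAddCommGroup E] [InnerProductSpace ℝ E] (K : Set E) :
    Prop where
  closed : IsClosed K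
  add : ∀ x ∈ K, ∀ y ∈ K, x + y ∈ K
  smul : ∀ c : ℝ, 0 ≤ c → ∀ x ∈ K, c • x ∈ K
  normal : ∃ c : ℝ, 0 < c ∧ ∀ x y, x ∈ K → y - x ∈ K → ‖x‖ ≤ c * ‖y‖
  generating : ∀ x, ∃ a ∈ K, ∃ b ∈ K, x = a - b

/-- `H` is the complexification of `E` through the real linear map `ι`. -/
structure IsComplexification {E H : Type*} [NormedAddCommGroup E] [InnerProductSpace ℝ E]
    [NormedAddCommGroup H] [InnerProductSpace ℂ H] (ι : E →ₗ[ℝ] H) : Prop where
  inner_eq : ∀ x y, inner ℂ (ι x) (ι y) = ((inner ℝ x y : ℝ) : ℂ)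
  span : ∀ h, ∃ x y, h = ι x + I • ι y

variable {E : Type*} [NormedAddCommGroup E] [InnerProductSpace ℝ E] [CompleteSpace E]
variable {H : Type*} [NormedAddCommGroup H] [InnerProductSpace ℂ H] [CompleteSpace H]
variable {T : ℝ → H →L[ℂ] H} {K : Set E} {ι : E →ₗ[ℝ] H}

omit [CompleteSpace E] in
lemma cone_zero (hK : IsOrderCone K) : (0 : E) ∈ K := by
  obtain ⟨a, ha, -⟩ := hK.generating 0
  have := hK.smul 0 le_rfl a ha
  rwa [zero_smul] at this

lemma cone_integral (hK : IsOrderCone K) {f : ℝ → E} (hf : IntegrableOn f (Ioi 0))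
    (h : ∀ s ∈ Ioi (0 : ℝ), f s ∈ K) : ∫ s in Ioi (0 : ℝ), f s ∈ K := by
  by_contra hv
  have hconv : Convex ℝ K := by
    intro x hx y hy a b ha hb _
    exact hK.add _ (hK.smul a ha x hx) _ (hK.smul b hb y hy)
  obtain ⟨φ, u, h1, h2⟩ := geometric_hahn_banach_closed_point hconv hK.closed hv
  have h0 : 0 < u := by
    have := h1 0 (cone_zero hK); rwa [map_zero] at this
  have h3 : ∀ a ∈ K, φ a ≤ 0 := by
    intro a ha
    by_contra hpos
    push Not at hpos
    have h4 := h1 ((u / φ a) • a) (hK.smul _ (by positivity) a ha)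
    rw [map_smul, smul_eq_mul, div_mul_cancel₀ _ hpos.ne'] at h4
    exact lt_irrefl _ h4
  rw [← ContinuousLinearMap.integral_comp_comm _ hf] at h2
  have h5 : ∫ s in Ioi (0 : ℝ), φ (f s) ≤ 0 :=
    setIntegral_nonpos measurableSet_Ioi fun s hs => h3 _ (h s hs)
  linarith

omit [CompleteSpace E] [CompleteSpace H] in
lemma iota_norm (hι : IsComplexification ι) (x : E) : ‖ι x‖ = ‖x‖ := by
  have h1 := hι.inner_eq x x
  rw [inner_self_eq_norm_sq_to_K, real_inner_self_eq_norm_sq] at h1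
  have h2 : ‖ι x‖ ^ 2 = ‖x‖ ^ 2 := Complex.ofReal_injective (by simpa using h1)
  exact (pow_left_inj₀ (norm_nonneg _) (norm_nonneg _) two_ne_zero).1 h2

theorem lap_dom (hK : IsOrderCone K) (hι : IsComplexification ι) (hT : IsC0Group T)
    (hpos : ∀ t, ∀ x ∈ K, ∃ y ∈ K, T t (ι x) = ι y) :
    ∃ C : ℝ, 0 < C ∧ ∀ x ∈ K, ∀ z : ℂ, om T < z.re →
      ‖Lap T z (ι x)‖ ≤ C * ‖Lap T (z.re : ℂ) (ι x)‖ := by
  obtain ⟨c, hc, hn⟩ := hK.normal
  refine ⟨2 * (2 * c + 1), by positivity, fun x hx z hz => ?_⟩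
  obtain ⟨ω, h1, h2⟩ := exists_between hz
  have hg := gb_of_om_lt hT h1
  choose p hpK hp using fun t => hpos t x hx
  obtain ⟨γ, hγ⟩ : ∃ γ, γ = z.re := ⟨_, rfl⟩
  obtain ⟨β, hβ⟩ : ∃ β, β = z.im := ⟨_, rfl⟩
  rw [← hγ] at h2 ⊢
  let L : E →ₗᵢ[ℝ] H := ⟨ι, iota_norm hι⟩
  have hL : ∀ y, L y = ι y := fun y => rfl
  have hpc : Continuous p := by
    rw [L.isometry.isUniformInducing.isInducing.continuous_iff]
    have : (L ∘ p) = fun t => T t (ι x) := by ext t; exact (hp t).symm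
    rw [this]; exact hT.cont _
  obtain ⟨P, hP⟩ : ∃ P : ℝ → E, P = fun s => Real.exp (-(γ * s)) • p s := ⟨_, rfl⟩
  have hPc : Continuous P := by rw [hP]; fun_prop
  have hPK : ∀ s, P s ∈ K := fun s => by
    rw [hP]; exact hK.smul _ (Real.exp_pos _).le _ (hpK s)
  have hgP : ∀ s, g T (γ : ℂ) (ι x) s = L (P s) := by
    intro s
    unfold g
    rw [hp s, hP]
    show _ = L (Real.exp (-(γ * s)) • p s)
    rw [map_smul, hL, ← Complex.coe_smul]
    congr 1
    push_cast; rfl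
  have hPi : IntegrableOn P (Ioi 0) := by
    have h3 := g_int hT hg (z := (γ : ℂ)) (by simpa using h2) (ι x) 0
    have h4 : Integrable (g T (γ : ℂ) (ι x)) (volume.restrict (Ioi 0)) := h3
    refine h4.mono hPc.aestronglyMeasurable (Eventually.of_forall fun s => ?_)
    rw [hgP s, L.norm_map]
  have hai : ∀ a : ℝ → ℝ, Continuous a → (∀ s, |a s| ≤ 2) →
      IntegrableOn (fun s => a s • P s) (Ioi 0) := by
    intro a ha hb
    refine (hPi.norm.const_mul 2).mono' (ha.smul hPc).aestronglyMeasurable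
      (Eventually.of_forall fun s => ?_)
    rw [norm_smul, Real.norm_eq_abs]
    gcongr
    exact hb s
  have hcos : Continuous fun s : ℝ => Real.cos (β * s) := by fun_prop
  have hsin : Continuous fun s : ℝ => Real.sin (β * s) := by fun_prop
  -- the real estimate
  have hest : ∀ a : ℝ → ℝ, Continuous a → (∀ s, |a s| ≤ 1) →
      ‖∫ s in Ioi (0 : ℝ), a s • P s‖ ≤ (2 * c + 1) * ‖∫ s in Ioi (0 : ℝ), P s‖ := by
    intro a ha hb
    have i1 : IntegrableOn (fun s => a s • P s) (Ioi 0) :=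
      hai a ha fun s => (hb s).trans (by norm_num)
    have e1 : ∫ s in Ioi (0 : ℝ), (1 + a s) • P s =
        (∫ s in Ioi (0 : ℝ), P s) + ∫ s in Ioi (0 : ℝ), a s • P s := by
      rw [← integral_add hPi i1]
      congr 1; ext s; rw [add_smul, one_smul]
    have e2 : ∫ s in Ioi (0 : ℝ), (1 - a s) • P s =
        (∫ s in Ioi (0 : ℝ), P s) - ∫ s in Ioi (0 : ℝ), a s • P s := by
      rw [← integral_sub hPi i1]
      congr 1; ext s; rw [sub_smul, one_smul]
    have k1 : ∫ s in Ioi (0 : ℝ), (1 + a s) • P s ∈ K := by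
      refine cone_integral hK (hai _ (by fun_prop) fun s => ?_) fun s _ =>
        hK.smul _ (by have := abs_le.1 (hb s); linarith) _ (hPK s)
      have := abs_le.1 (hb s)
      rw [abs_le]; constructor <;> linarith
    have k2 : ∫ s in Ioi (0 : ℝ), (1 - a s) • P s ∈ K := by
      refine cone_integral hK (hai _ (by fun_prop) fun s => ?_) fun s _ =>
        hK.smul _ (by have := abs_le.1 (hb s); linarith) _ (hPK s)
      have := abs_le.1 (hb s)
      rw [abs_le]; constructor <;> linarith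
    obtain ⟨G, hG⟩ : ∃ G, G = ∫ s in Ioi (0 : ℝ), P s := ⟨_, rfl⟩
    obtain ⟨A, hA⟩ : ∃ A, A = ∫ s in Ioi (0 : ℝ), a s • P s := ⟨_, rfl⟩
    rw [e1, ← hG, ← hA] at k1
    rw [e2, ← hG, ← hA] at k2
    rw [← hG, ← hA]
    have h5 := hn (G + A) ((2 : ℝ) • G) k1 (by
      have : (2 : ℝ) • G - (G + A) = G - A := by rw [two_smul]; abel
      rw [this]; exact k2)
    rw [norm_smul, Real.norm_eq_abs, abs_of_pos (by norm_num : (0 : ℝ) < 2)] at h5
    have h6 : ‖A‖ ≤ ‖G + A‖ + ‖G‖ := by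
      have : A = (G + A) - G := by abel
      conv_lhs => rw [this]
      exact norm_sub_le _ _
    linarith
  have hG : Lap T (γ : ℂ) (ι x) = L (∫ s in Ioi (0 : ℝ), P s) := by
    unfold Lap
    simp_rw [hgP]
    exact L.toContinuousLinearMap.integral_comp_comm hPi
  have i2 : IntegrableOn (fun s => Real.cos (β * s) • P s) (Ioi 0) :=
    hai _ hcos fun s => (Real.abs_cos_le_one _).trans (by norm_num)
  have i3 : IntegrableOn (fun s => Real.sin (β * s) • P s) (Ioi 0) :=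
    hai _ hsin fun s => (Real.abs_sin_le_one _).trans (by norm_num)
  have hz1 : Lap T z (ι x) = L (∫ s in Ioi (0 : ℝ), Real.cos (β * s) • P s) -
      I • L (∫ s in Ioi (0 : ℝ), Real.sin (β * s) • P s) := by
    have f1 : L (∫ s in Ioi (0 : ℝ), Real.cos (β * s) • P s) =
        ∫ s in Ioi (0 : ℝ), L (Real.cos (β * s) • P s) :=
      (L.toContinuousLinearMap.integral_comp_comm i2).symm
    have f2 : L (∫ s in Ioi (0 : ℝ), Real.sin (β * s) • P s) =
        ∫ s in Ioi (0 : ℝ), L (Real.sin (β * s) • P s) :=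
      (L.toContinuousLinearMap.integral_comp_comm i3).symm
    rw [f1, f2, ← integral_smul, ← integral_sub]
    · unfold Lap
      congr 1
      ext s
      unfold g
      rw [hp s, map_smul, map_smul, hP]
      show _ = Real.cos (β * s) • L (Real.exp (-(γ * s)) • p s) -
        I • Real.sin (β * s) • L (Real.exp (-(γ * s)) • p s)
      rw [map_smul, hL]
      simp only [← Complex.coe_smul, smul_smul, ← sub_smul]
      congr 1
      have e : -(z * (s : ℂ)) = ((-(γ * s) : ℝ) : ℂ) + ((-(β * s) : ℝ) : ℂ) * I := by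
        conv_lhs => rw [← Complex.re_add_im z]
        rw [← hγ, ← hβ]; push_cast; ring
      rw [e, Complex.exp_add, Complex.exp_mul_I, ← Complex.ofReal_cos, ← Complex.ofReal_sin,
        Real.cos_neg, Real.sin_neg, ← Complex.ofReal_exp]
      push_cast
      ring
    · exact L.toContinuousLinearMap.integrable_comp i2
    · exact (L.toContinuousLinearMap.integrable_comp i3).smul I
  rw [hz1, hG, L.norm_map]
  refine (norm_sub_le _ _).trans ?_
  rw [norm_smul, Complex.norm_I, one_mul, L.norm_map, L.norm_map]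
  have q1 := hest _ hcos fun s => Real.abs_cos_le_one _
  have q2 := hest _ hsin fun s => Real.abs_sin_le_one _
  linarith

/-- The growth bound lies in the spectrum. -/
theorem om_spec [Nontrivial H] (hK : IsOrderCone K) (hι : IsComplexification ι)
    (hT : IsC0Group T) (hpos : ∀ t, ∀ x ∈ K, ∃ y ∈ K, T t (ι x) = ι y) :
    ¬ InRes T (om T : ℂ) := by
  rintro ⟨R₀, -, hR₀⟩
  obtain ⟨C, hC, hdom⟩ := lap_dom hK hι hT hpos
  obtain ⟨α, hα⟩ : ∃ α, α = om T + 1 / (2 * (‖R₀‖ + 1)) := ⟨_, rfl⟩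
  have hα0 : om T < α := by rw [hα]; have := norm_nonneg R₀; linarith [show 0 < 1 / (2 * (‖R₀‖ + 1)) by positivity]
  have hreal : ∀ γ : ℝ, om T < γ → γ < α → ∀ y, ‖Lap T (γ : ℂ) y‖ ≤ 2 * ‖R₀‖ * ‖y‖ := by
    intro γ h1 h2 y
    obtain ⟨ω, h3, h4⟩ := exists_between h1
    have hid := res_id hT (gb_of_om_lt hT h3) (z := (γ : ℂ)) (by simpa using h4) hR₀ y
    have h5 : ‖Lap T (γ : ℂ) y‖ ≤ ‖R₀‖ * ‖y‖ + (γ - om T) * (‖R₀‖ * ‖Lap T (γ : ℂ) y‖) := by
      calc ‖Lap T (γ : ℂ) y‖ = ‖R₀ y + ((om T : ℂ) - γ) • R₀ (Lap T (γ : ℂ) y)‖ := by rw [← hid]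
        _ ≤ ‖R₀ y‖ + ‖((om T : ℂ) - γ) • R₀ (Lap T (γ : ℂ) y)‖ := norm_add_le _ _
        _ ≤ ‖R₀‖ * ‖y‖ + (γ - om T) * (‖R₀‖ * ‖Lap T (γ : ℂ) y‖) := by
            rw [norm_smul]
            have e1 : ‖(om T : ℂ) - γ‖ = γ - om T := by
              rw [← Complex.ofReal_sub, Complex.norm_real, Real.norm_eq_abs,
                abs_of_neg (by linarith)]
              ring
            rw [e1]
            gcongr
            · exact R₀.le_opNorm _
            · exact R₀.le_opNorm _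
    have h6 : (γ - om T) * ‖R₀‖ ≤ 1 / 2 := by
      have h7 : γ - om T ≤ 1 / (2 * (‖R₀‖ + 1)) := by rw [hα] at h2; linarith
      calc (γ - om T) * ‖R₀‖ ≤ 1 / (2 * (‖R₀‖ + 1)) * (‖R₀‖ + 1) := by gcongr; linarith
        _ = 1 / 2 := by field_simp
    have h8 : (γ - om T) * (‖R₀‖ * ‖Lap T (γ : ℂ) y‖) ≤ 1 / 2 * ‖Lap T (γ : ℂ) y‖ := by
      rw [← mul_assoc]; gcongr
    linarith
  -- pointwise bound
  have hR : ∀ z : {z : ℂ // om T < z.re ∧ z.re < α}, ∃ R : H →L[ℂ] H, ∀ y, R y = Lap T z y := by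
    rintro ⟨z, h1, h2⟩
    obtain ⟨ω, h3, h4⟩ := exists_between h1
    exact lap_clm hT (gb_of_om_lt hT h3) h4
  choose R hR using hR
  obtain ⟨C', hC'⟩ := banach_steinhaus (g := R) (fun h => by
    obtain ⟨x, y, rfl⟩ := hι.span h
    obtain ⟨a, ha, b, hb, rfl⟩ := hK.generating x
    obtain ⟨a', ha', b', hb', rfl⟩ := hK.generating y
    refine ⟨C * (2 * ‖R₀‖ * ‖ι a‖) + C * (2 * ‖R₀‖ * ‖ι b‖) +
      (C * (2 * ‖R₀‖ * ‖ι a'‖) + C * (2 * ‖R₀‖ * ‖ι b'‖)), fun z => ?_⟩
    have hk : ∀ w ∈ K, ‖R z (ι w)‖ ≤ C * (2 * ‖R₀‖ * ‖ι w‖) := by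
      intro w hw
      rw [hR]
      exact (hdom w hw z z.2.1).trans (by gcongr; exact hreal _ z.2.1 z.2.2 _)
    rw [map_add, map_smul, map_sub, map_sub, map_sub, map_sub]
    refine (norm_add_le _ _).trans ?_
    rw [norm_smul, Complex.norm_I, one_mul]
    exact add_le_add ((norm_sub_le _ _).trans (add_le_add (hk a ha) (hk b hb)))
      ((norm_sub_le _ _).trans (add_le_add (hk a' ha') (hk b' hb'))))
  obtain ⟨D, hD, hsq⟩ := orbit_sq hT hα0 (C := |C'|) (abs_nonneg _) (fun z h1 h2 y => by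
    rw [← hR ⟨z, h1, h2⟩ y]
    exact ((R ⟨z, h1, h2⟩).le_opNorm y).trans (by
      gcongr; exact (hC' _).trans (le_abs_self _)))
  exact no_bound hT hα0 hD hsq

end Pool.Agent.Q301.SG
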