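import Mathlib
set_option autoImplicit false

/-! Strongly continuous groups: growth bound and Laplace transform resolvent. -/

namespace Pool.Agent.Q301.SG

open Complex MeasureTheory Filter Topology Set
open scoped ENNReal

variable {H : Type*} [NormedAddCommGroup H] [InnerProductSpace ℂ H] [CompleteSpace H]

/-- A strongly continuous one-parameter group of bounded operators. -/
structure IsC0Group (T : ℝ → H →L[ℂ] H) : Prop where
  zero : T 0 = 1
  add : ∀ s t, T (s + t) = T s * T t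
  cont : ∀ x, Continuous fun t => T t x

/-- `x` lies in the domain of the generator `A`, and `A x = w`. -/
def Gen (T : ℝ → H →L[ℂ] H) (x w : H) : Prop := HasDerivAt (fun t : ℝ => T t x) w 0

/-- `z` lies in the resolvent set of the generator. -/
def InRes (T : ℝ → H →L[ℂ] H) (z : ℂ) : Prop :=
  ∃ R : H →L[ℂ] H, (∀ y, ∃ w, Gen T (R y) w ∧ z • R y - w = y) ∧
    ∀ x w, Gen T x w → R (z • x - w) = x

/-- exponential bound -/
def GB (T : ℝ → H →L[ℂ] H) (ω : ℝ) : Prop :=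
  ∃ M : ℝ, 0 < M ∧ ∀ t : ℝ, 0 ≤ t → ‖T t‖ ≤ M * Real.exp (ω * t)

variable {T : ℝ → H →L[ℂ] H}

lemma bdd_Icc (hT : IsC0Group T) (a b : ℝ) : ∃ M : ℝ, 1 ≤ M ∧ ∀ t ∈ Icc a b, ‖T t‖ ≤ M := by
  obtain ⟨C, hC⟩ := banach_steinhaus (g := fun t : Icc a b => T t) (fun x => by
    obtain ⟨C, hC⟩ := isCompact_Icc.exists_bound_of_continuousOn (s := Icc a b)
      (hT.cont x).continuousOn
    exact ⟨C, fun t => hC t t.2⟩)
  exact ⟨max C 1, le_max_right _ _, fun t ht => (hC ⟨t, ht⟩).trans (le_max_left _ _)⟩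

lemma T_nat (hT : IsC0Group T) (t : ℝ) (n : ℕ) : T (n * t) = T t ^ n := by
  induction n with
  | zero => simp [hT.zero]
  | succ n ih =>
    have : ((n + 1 : ℕ) : ℝ) * t = n * t + t := by push_cast; ring
    rw [this, hT.add, ih, pow_succ]

lemma norm_pos [Nontrivial H] (hT : IsC0Group T) (t : ℝ) : 0 < ‖T t‖ := by
  rw [norm_pos_iff]
  intro h
  have h1 : T (t + -t) = 0 := by rw [hT.add, h, zero_mul]
  rw [add_neg_cancel, hT.zero] at h1
  exact one_ne_zero h1

lemma gb_of_le (hT : IsC0Group T) {t₀ ω : ℝ} (h0 : 0 < t₀)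
    (h : ‖T t₀‖ ≤ Real.exp (ω * t₀)) : GB T ω := by
  obtain ⟨M, hM1, hM⟩ := bdd_Icc hT 0 t₀
  refine ⟨M * Real.exp (|ω| * t₀), by positivity, fun t ht => ?_⟩
  obtain ⟨n, hn⟩ : ∃ n : ℕ, n = ⌊t / t₀⌋₊ := ⟨_, rfl⟩
  have h1 : (n : ℝ) * t₀ ≤ t := by
    rw [hn, ← le_div_iff₀ h0]; exact Nat.floor_le (by positivity)
  have h2 : t < (n + 1) * t₀ := by
    rw [hn, ← div_lt_iff₀ h0]; exact Nat.lt_floor_add_one _
  have h3 : T t = T t₀ ^ n * T (t - n * t₀) := by
    rw [← T_nat hT, ← hT.add]; congr 1; ring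
  have h4 : ‖T (t - n * t₀)‖ ≤ M := hM _ ⟨by linarith, by linarith⟩
  have h5 : ‖T t₀ ^ n‖ ≤ Real.exp (ω * t₀) ^ n := by
    rcases Nat.eq_zero_or_pos n with h | h
    · rw [h, pow_zero, pow_zero]
      have := ContinuousLinearMap.norm_id_le (𝕜 := ℂ) (E := H)
      exact this
    · exact (norm_pow_le' _ h).trans (pow_le_pow_left₀ (norm_nonneg _) ‹_› _)
  rw [h3]
  calc ‖T t₀ ^ n * T (t - n * t₀)‖ ≤ ‖T t₀ ^ n‖ * ‖T (t - n * t₀)‖ := norm_mul_le _ _
    _ ≤ Real.exp (ω * t₀) ^ n * M := by gcongr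
    _ = M * Real.exp (ω * (n * t₀)) := by
        rw [← Real.exp_nat_mul]; ring_nf
    _ ≤ M * (Real.exp (|ω| * t₀) * Real.exp (ω * t)) := by
        rw [← Real.exp_add]
        gcongr
        have : ω * (n * t₀ - t) ≤ |ω| * t₀ := by
          calc ω * (n * t₀ - t) ≤ |ω * (n * t₀ - t)| := le_abs_self _
            _ = |ω| * |n * t₀ - t| := abs_mul _ _
            _ ≤ |ω| * t₀ := by
              gcongr
              rw [abs_le]; constructor <;> linarith
        linarith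
    _ = _ := by ring

lemma gb_mono {ω ω' : ℝ} (h : GB T ω) (hle : ω ≤ ω') : GB T ω' := by
  obtain ⟨M, hM, h1⟩ := h
  exact ⟨M, hM, fun t ht => (h1 t ht).trans (by gcongr)⟩

lemma gb_nonempty (hT : IsC0Group T) : {ω | GB T ω}.Nonempty := by
  refine ⟨‖T 1‖, gb_of_le hT (t₀ := 1) one_pos ?_⟩
  rw [mul_one]
  have := Real.add_one_le_exp ‖T 1‖
  linarith

lemma neg_group (hT : IsC0Group T) : IsC0Group (fun t => T (-t)) where
  zero := by simp [hT.zero]
  add := fun s t => by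
    show T (-(s + t)) = T (-s) * T (-t)
    rw [← hT.add]; congr 1; ring
  cont := fun x => (hT.cont x).comp continuous_neg

lemma gb_bddBelow [Nontrivial H] (hT : IsC0Group T) : BddBelow {ω | GB T ω} := by
  obtain ⟨ω₂, M₂, hM₂, h₂⟩ := gb_nonempty (neg_group hT)
  refine ⟨-ω₂, fun ω hω => ?_⟩
  obtain ⟨M, hM, h1⟩ := hω
  by_contra hlt
  push Not at hlt
  have h3 : ∀ t : ℝ, 0 ≤ t → 1 ≤ (M * M₂) * Real.exp ((ω + ω₂) * t) := by
    intro t ht
    have e1 : T t * T (-t) = 1 := by rw [← hT.add, add_neg_cancel, hT.zero]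
    calc (1 : ℝ) = ‖(1 : H →L[ℂ] H)‖ := by simp
      _ = ‖T t * T (-t)‖ := by rw [e1]
      _ ≤ ‖T t‖ * ‖T (-t)‖ := norm_mul_le _ _
      _ ≤ (M * Real.exp (ω * t)) * (M₂ * Real.exp (ω₂ * t)) := by
          gcongr
          · exact h1 t ht
          · exact h₂ t ht
      _ = (M * M₂) * Real.exp ((ω + ω₂) * t) := by
          rw [add_mul, Real.exp_add]; ring
  have h4 : Tendsto (fun t : ℝ => (M * M₂) * Real.exp ((ω + ω₂) * t)) atTop (𝓝 0) := by
    have h5 : Tendsto (fun t : ℝ => (ω + ω₂) * t) atTop atBot :=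
      tendsto_id.const_mul_atTop_of_neg (by linarith)
    have := (Real.tendsto_exp_atBot.comp h5).const_mul (M * M₂)
    simpa using this
  have h6 := h4.eventually (gt_mem_nhds (show (0 : ℝ) < 1 by norm_num))
  obtain ⟨t, ht1, ht2⟩ := (h6.and (eventually_ge_atTop 0)).exists
  exact absurd (h3 t ht2) (not_le.2 ht1)

/-- the growth bound -/
noncomputable def om (T : ℝ → H →L[ℂ] H) : ℝ := sInf {ω | GB T ω}

lemma gb_of_om_lt (hT : IsC0Group T) {ω : ℝ} (h : om T < ω) : GB T ω := by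
  obtain ⟨ω', h1, h2⟩ := exists_lt_of_csInf_lt (gb_nonempty hT) h
  exact gb_mono h1 h2.le

lemma om_le_log [Nontrivial H] (hT : IsC0Group T) {t : ℝ} (ht : 0 < t) :
    om T ≤ Real.log ‖T t‖ / t := by
  refine csInf_le (gb_bddBelow hT) (gb_of_le hT ht ?_)
  rw [div_mul_cancel₀ _ ht.ne', Real.exp_log (norm_pos hT t)]

theorem tendsto_om [Nontrivial H] (hT : IsC0Group T) :
    Tendsto (fun t : ℝ => Real.log ‖T t‖ / t) atTop (𝓝 (om T)) := by
  rw [Metric.tendsto_atTop]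
  intro ε hε
  obtain ⟨M, hM, h1⟩ := gb_of_om_lt hT (show om T < om T + ε / 2 by linarith)
  refine ⟨max 1 (2 * |Real.log M| / ε + 1), fun t ht => ?_⟩
  have ht1 : 1 ≤ t := (le_max_left _ _).trans ht
  have ht2 : 2 * |Real.log M| / ε + 1 ≤ t := (le_max_right _ _).trans ht
  have h0 : 0 < t := by linarith
  have h2 := om_le_log hT h0
  have h3 : Real.log ‖T t‖ ≤ Real.log M + (om T + ε / 2) * t := by
    have := Real.log_le_log (norm_pos hT t) (h1 t h0.le)
    rwa [Real.log_mul hM.ne' (Real.exp_pos _).ne', Real.log_exp] at this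
  have h4 : Real.log ‖T t‖ / t < om T + ε := by
    rw [div_lt_iff₀ h0]
    have h5 : Real.log M < ε / 2 * t := by
      have : 2 * |Real.log M| / ε < t := by linarith
      rw [div_lt_iff₀ hε] at this
      have := le_abs_self (Real.log M)
      nlinarith
    nlinarith
  rw [Real.dist_eq, abs_lt]
  constructor <;> linarith

end Pool.Agent.Q301.SG
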